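import Pool.Agent.W997.CS.Stm

/-!
# The law for the graph of height `p`
-/

set_option autoImplicit false

namespace Pool.Agent.W997.CS

open Pool.Agent.W997.DB
open Pool.Agent.W997.GS

theorem base : S_BASE := by
  intro δ hδ
  obtain ⟨β, p₀, hβ, hp₀, hpar⟩ := exists_par δ hδ
  have hb4 : 4 ≤ 2 ^ β := by
    calc 4 = 2 ^ 2 := by norm_num
      _ ≤ 2 ^ β := Nat.pow_le_pow_right (by norm_num) (by omega)
  obtain ⟨D, hD⟩ : ∃ D, D = (2 ^ β) ^ 3 := ⟨_, rfl⟩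
  have hD2 : 2 ≤ D := by
    rw [hD]
    calc 2 ≤ 2 ^ β := by omega
      _ = (2 ^ β) ^ 1 := (pow_one _).symm
      _ ≤ (2 ^ β) ^ 3 := Nat.pow_le_pow_right (by positivity) (by norm_num)
  have hβ0 : (0 : ℝ) < β := by
    have : 0 < β := by omega
    exact_mod_cast this
  refine ⟨D, 21 * β, hD2, by omega,
    1 / (4 * (β : ℝ) * (21 * ((2 ^ β : ℕ) : ℝ) ^ 3 + 9)), by positivity, p₀, ?_⟩
  intro p hp g i
  have hpp : p < 2 ^ p := Nat.lt_two_pow_self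
  have h1 : 1 ≤ p := by omega
  have hh' : p + 1 ≤ (2 ^ β) ^ (2 * p) := by
    calc p + 1 ≤ 2 ^ p * 2 ^ p := by nlinarith
      _ = 2 ^ (2 * p) := by rw [← pow_add]; congr 1; ring
      _ ≤ (2 ^ β) ^ (2 * p) := Nat.pow_le_pow_left (by omega) _
  have H := hpar D hD p hp p h1 hh' (21 * β * p) rfl _ rfl
  refine ⟨fun r hr => ?_, par_stack H hpp.le g i⟩
  obtain ⟨P, hP1, hP2⟩ := par_upper H g i r hr
  refine ⟨P, hP1, fun x => ?_⟩
  obtain ⟨t', m', h2, h3, h4⟩ := hP2 x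
  refine ⟨t', m', h2.trans ?_, h3, h4⟩
  refine le_trans ?_ H.ge_pow
  rw [hD]
  push_cast
  rw [← pow_mul]
  exact pow_le_pow_right₀ (by
    have : (4 : ℝ) ≤ ((2 ^ β : ℕ) : ℝ) := by exact_mod_cast hb4
    push_cast at this
    linarith) (by omega)

end Pool.Agent.W997.CS
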