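import Pool.Agent.W997.GS.Final
import Pool.Agent.W997.CF.Defs

/-!
# Words of a deterministic context-free language which describe the unrolled De Bruijn graph
-/

set_option autoImplicit false

namespace Pool.Agent.W997.CS

open Pool.Agent.W997.DB (Word Var Input value shift rootBit)
open Pool.Agent.W997.CF (TL ev digits tree arg mach)

theorem arg_lt (D L : ℕ) (a : List Bool) (s : Fin D) : arg D L a s < 2 ^ L := by
  unfold arg
  exact Nat.ofBits_lt_two_pow _

/-- The entry of the table of the inner node `(j + 1, g, i)` with address `a`. -/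
def entry {D ρ h : ℕ} (L : ℕ) (j : Fin h) (g : Word D ρ) (i : Fin D) (a : List Bool) :
    List (TL (Var D ρ h (2 ^ L))) :=
  digits L (Sum.inl (j, g, i, fun s => ⟨arg D L a s, arg_lt D L a s⟩))

/-- The template for the part below the node `(j, g, i)`: the templates of the children, then the
table as a decision tree. -/
def tmpl {D ρ h : ℕ} (L : ℕ) : (j : ℕ) → j ≤ h → Word D ρ → Fin D → List (TL (Var D ρ h (2 ^ L)))
  | 0, _, g, i => digits L (Sum.inr (g, i))
  | j + 1, hj, g, i =>
    (List.finRange D).flatMap (fun s => tmpl L j (Nat.le_of_succ_le hj) (shift g i) s) ++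
      tree (D * L) (entry L ⟨j, hj⟩ g i)

/-- The digits of all variables. -/
noncomputable def pre (D ρ h L : ℕ) : List (TL (Var D ρ h (2 ^ L))) :=
  (Finset.univ : Finset (Var D ρ h (2 ^ L))).toList.flatMap (digits L)

/-- The template of the word. -/
noncomputable def wd {D ρ : ℕ} (h L : ℕ) (g : Word D ρ) (i : Fin D) :
    List (TL (Var D ρ h (2 ^ L))) :=
  pre D ρ h L ++ (tmpl L h le_rfl g i ++ [Sum.inl 5])

/-- The number of variables. -/
noncomputable def NN (D ℓ₁ p : ℕ) : ℕ := Fintype.card (Var D (2 * p) p (2 ^ (ℓ₁ * p)))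

end Pool.Agent.W997.CS
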