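import Pool.Agent.W997.CS.Base
import Pool.Agent.W597.CFTRANS

/-!
# The law for a deterministic context-free language
-/

set_option autoImplicit false

namespace Pool.Agent.W997.CS

open Finset
open Pool.Agent.W997.DB (Word Var Input value shift rootBit)
open Pool.Agent.W997.CF (TL ev digits tree arg mach)
open Pool.Agent.W997.GS
open Pool.Agent.W597.CFTRANS (qv lt lt_ev)

/-! ### The padded words -/

section Words

variable {D ρ : ℕ} {h L m : ℕ} {g : Word D ρ} {i : Fin D}

/-- The template of the padded word of length `m`. -/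
noncomputable def T (h L m : ℕ) (g : Word D ρ) (i : Fin D) (t : Fin m) :
    TL (Var D ρ h (2 ^ L)) :=
  if t.val < m - (wd h L g i).length then Sum.inl 0
  else (wd h L g i).getD (t.val - (m - (wd h L g i).length)) (Sum.inl 0)

/-- The padded word of an input. -/
noncomputable def pw (h L m : ℕ) (g : Word D ρ) (i : Fin D) (x : Input D ρ h (2 ^ L)) :
    Fin m → Fin 6 :=
  fun t => ev x (T h L m g i t)

theorem ofFn_pw (hl : (wd h L g i).length ≤ m) (x : Input D ρ h (2 ^ L)) :
    List.ofFn (pw h L m g i x) =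
      List.replicate (m - (wd h L g i).length) (0 : Fin 6) ++ (wd h L g i).map (ev x) := by
  apply List.ext_getElem
  · simp
    omega
  · intro t h1 h2
    simp only [List.getElem_ofFn, pw, T]
    rcases lt_or_ge t (m - (wd h L g i).length) with hi | hi
    · rw [if_pos hi, List.getElem_append_left (by simpa using hi)]
      simp [ev]
    · rw [if_neg (not_lt.2 hi), List.getElem_append_right (by simpa using hi)]
      simp only [List.length_replicate, List.getElem_map]
      congr 1
      have h3 : t - (m - (wd h L g i).length) < (wd h L g i).length := by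
        rw [List.length_ofFn] at h1
        omega
      rw [List.getD_eq_getElem _ _ h3]

theorem mem_wd (u : Var D ρ h (2 ^ L)) (e : ℕ) (he : e < L) :
    (Sum.inr (u, e) : TL (Var D ρ h (2 ^ L))) ∈ wd h L g i := by
  unfold wd pre
  rw [List.mem_append]
  left
  rw [List.mem_flatMap]
  refine ⟨u, by simp, ?_⟩
  unfold digits
  rw [List.mem_map]
  exact ⟨e, by simpa using he, rfl⟩

theorem exists_pos (hl : (wd h L g i).length ≤ m) (u : Var D ρ h (2 ^ L)) (e : ℕ) (he : e < L) :
    ∃ t : Fin m, T h L m g i t = Sum.inr (u, e) := by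
  obtain ⟨j, hj⟩ := List.mem_iff_getElem.1 (mem_wd (g := g) (i := i) u e he)
  obtain ⟨hj1, hj2⟩ := hj
  refine ⟨⟨j + (m - (wd h L g i).length), by omega⟩, ?_⟩
  simp only [T]
  rw [if_neg (by omega), Nat.add_sub_cancel, List.getD_eq_getElem _ _ hj1, hj2]

theorem pw_injective (hl : (wd h L g i).length ≤ m) : Function.Injective (pw h L m g i) := by
  intro x x' hx
  funext u
  apply Fin.ext
  apply Nat.eq_of_testBit_eq
  intro e
  rcases lt_or_ge e L with he | he
  · obtain ⟨t, ht⟩ := exists_pos hl u e he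
    have h3 := congrFun hx t
    simp only [pw, ht, ev] at h3
    by_cases h4 : (x u).val.testBit e <;> by_cases h5 : (x' u).val.testBit e <;>
      simp_all
  · have h4 : (x u).val < 2 ^ e := (x u).2.trans_le (Nat.pow_le_pow_right (by norm_num) he)
    have h5 : (x' u).val < 2 ^ e := (x' u).2.trans_le (Nat.pow_le_pow_right (by norm_num) he)
    rw [Nat.testBit_lt_two_pow h4, Nat.testBit_lt_two_pow h5]

end Words

/-! ### Programs over the positions -/

section Pull

variable {V : Type} {k m : ℕ}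

/-- The program over the variables. -/
def pull (k : ℕ) (P : SP (Fin m) 6) (T : Fin m → TL V) (v0 : V) : SP V k where
  State := P.State
  Sym := P.Sym
  start := P.start
  query q := qv v0 (T (P.query q))
  next q s c := P.next q s (lt c (T (P.query q)))

variable {P : SP (Fin m) 6} {T : Fin m → TL V} {v0 : V} {x : V → Fin k} {w : Fin m → Fin 6}
  (hw : ∀ i, w i = ev x (T i))

include hw in
theorem pull_step (κ κ' : P.Conf) : (pull k P T v0).Step x κ κ' ↔ P.Step w κ κ' := by
  have h1 : lt (x (qv v0 (T (P.query κ.1)))) (T (P.query κ.1)) = w (P.query κ.1) := by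
    rw [lt_ev, hw]
  show (∃ u, (κ'.1, u) ∈ P.next κ.1 κ.2.head? (lt (x (qv v0 (T (P.query κ.1))))
    (T (P.query κ.1))) ∧ κ'.2 = u ++ κ.2.tail) ↔ _
  rw [h1]
  rfl

include hw in
theorem pull_reach (κ : P.Conf) : (pull k P T v0).Reach x κ ↔ P.Reach w κ := by
  have h1 : (pull k P T v0).Step x = P.Step w := by
    funext κ κ'
    exact propext (pull_step hw κ κ')
  show Relation.ReflTransGen ((pull k P T v0).Step x) (P.start, []) κ ↔ _
  rw [h1]
  rfl

include hw in
theorem pull_graph : P.graph w =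
    (fun p : P.Conf × Fin k => (p.1, lt p.2 (T (P.query p.1.1)))) ''
      ((pull k P T v0).graph x) := by
  ext ⟨κ, a⟩
  constructor
  · rintro ⟨h1, h2⟩
    refine ⟨(κ, x (qv v0 (T (P.query κ.1)))), ⟨(pull_reach hw κ).2 h1, rfl⟩, ?_⟩
    refine Prod.ext rfl ?_
    show lt (x (qv v0 (T (P.query κ.1)))) (T (P.query κ.1)) = a
    rw [lt_ev, ← hw]
    exact h2
  · rintro ⟨⟨κ', c⟩, ⟨h1, h2⟩, h3⟩
    obtain ⟨rfl, rfl⟩ := Prod.mk.inj h3
    refine ⟨(pull_reach hw _).1 h1, ?_⟩
    have h4 : x (qv v0 (T (P.query κ'.1))) = c := h2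
    show w (P.query κ'.1) = lt c (T (P.query κ'.1))
    rw [← h4, lt_ev, hw]

include hw in
theorem pull_reads [Fintype V] [DecidableEq V] : (pull k P T v0).reads x ≤ P.reads w := by
  classical
  unfold SP.reads
  refine (card_le_card (?_ : _ ⊆ (univ.filter (fun v => ∃ κ, P.Reach w κ ∧
    P.query κ.1 = v)).image (fun i => qv v0 (T i)))).trans card_image_le
  intro v hv
  obtain ⟨κ, h1, h2⟩ := (mem_filter.1 hv).2
  rw [mem_image]
  exact ⟨P.query κ.1, mem_filter.2 ⟨mem_univ _, κ, (pull_reach hw κ).1 h1, rfl⟩, h2⟩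

end Pull

/-! ### The law -/

/-- Membership of the words of `F` in `A` is decided by a deterministic program with a stack, of log
size at most `s`, which on the words of `F` stops after at most `t` steps and never has more than
`τ` symbols on its stack. -/
def StackDecided {m : ℕ} (A : Language (Fin 6)) (F : Finset (Fin m → Fin 6)) (s τ t : ℝ) : Prop :=
  ∃ P : DSP (Fin m) 6, Real.log P.size ≤ s ∧ ∀ w ∈ F, ∃ (t' l τ' : ℕ) (r : Bool),
    (t' : ℝ) ≤ t ∧ (τ' : ℝ) ≤ τ ∧ P.Run w t' l τ' r ∧ (r = true ↔ List.ofFn w ∈ A)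

open Classical in
/-- Consider any program with a stack and any mode of acceptance (the output is an arbitrary
function of the computation graph), for which on the words of `F` the stack never contains more than
`τ` symbols and `τ + 1` times the log size is at most `s`.  If it is right on a fraction of at least
`1 / 2 + γ` of the words of `F`, then on average over `F` at least `l` different positions are read
in its reachable configurations. -/
def HardModes {m : ℕ} (A : Language (Fin 6)) (F : Finset (Fin m → Fin 6)) (s γ l : ℝ) : Prop :=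
  ∀ (P : SP (Fin m) 6) (τ : ℕ) (mode : Set (P.Conf × Fin 6) → Bool),
    (τ + 1) * Real.log P.size ≤ s → (∀ w ∈ F, ∀ κ, P.Reach w κ → κ.2.length ≤ τ) →
    (1 / 2 + γ) * #F ≤ #{w ∈ F | mode (P.graph w) = true ↔ List.ofFn w ∈ A} →
    l * #F ≤ ∑ w ∈ F, (P.reads w : ℝ)

theorem main (h1 : S_PDA) (h3 : S_LEN) (h4 : S_SIM) (h6 : S_SEL)
    (δ : ℝ) (hδ : 0 < δ) : ∃ ε : ℝ, 0 < ε ∧ ∃ c : ℝ, 0 < c ∧ ∃ m₀ : ℕ, ∀ m : ℕ, m₀ ≤ m →
      ∃ F : Finset (Fin m → Fin 6), F.Nonempty ∧
        (∀ r : ℕ, 1 ≤ r → StackDecided mach.language F (9 * r * Real.log m) (Real.log m / r)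
          ((m : ℝ) ^ δ)) ∧
        HardModes mach.language F (ε * Real.log m ^ 2) ((m : ℝ) ^ (-c)) ((m : ℝ) ^ (1 - δ)) := by
  classical
  set δ₁ : ℝ := min δ 1 with hδ₁
  have hδ₁0 : 0 < δ₁ := lt_min hδ (by norm_num)
  have hδ₁1 : δ₁ ≤ 1 := min_le_right _ _
  have hδ₁δ : δ₁ ≤ δ := min_le_left _ _
  set η : ℝ := δ₁ / 4 with hη
  have hη0 : 0 < η := by positivity
  have hη1 : η ≤ 1 / 4 := by rw [hη]; linarith
  obtain ⟨D, ℓ₁, hD, hℓ₁, c, hc, p₀, H⟩ := base η hη0
  obtain ⟨C, hC, hsel⟩ := h6 D ℓ₁ hD hℓ₁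
  obtain ⟨m₀, hm₀⟩ := hsel η hη0 p₀
  refine ⟨c / (4 * C), by positivity, c / 2, by positivity, m₀, fun m hm => ?_⟩
  obtain ⟨p, hp, hp1, hlen, hmN, hLη, hLN, hpN, hNC⟩ := hm₀ m hm
  obtain ⟨W0⟩ : Nonempty (Word D (2 * p) × Fin D) := ⟨(fun _ => ⟨0, by omega⟩, ⟨0, by omega⟩)⟩
  obtain ⟨g, i⟩ := W0
  obtain ⟨hup, hlow⟩ := H p hp g i
  set N : ℕ := NN D ℓ₁ p with hNdef
  set L : ℕ := ℓ₁ * p with hL
  have hL1 : 1 ≤ L := Nat.one_le_iff_ne_zero.2 (by positivity)
  have hlen' : (wd p L g i).length ≤ m :=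
    (h3 D (2 * p) p L g i hD hL1 hp1 (by omega)).trans hlen
  have hN1' : 1 ≤ N := le_trans (Nat.one_le_pow _ _ (by norm_num)) hLN
  have hNm : N ≤ m := by
    refine le_trans ?_ hlen
    exact Nat.le_mul_of_pos_right _ (by omega)
  have hN1 : (1 : ℝ) ≤ N := by exact_mod_cast hN1'
  have hN0 : (0 : ℝ) < N := by linarith
  have hNmR : (N : ℝ) ≤ m := by exact_mod_cast hNm
  have hm1 : (1 : ℝ) ≤ m := hN1.trans hNmR
  have hm0 : (0 : ℝ) < m := by linarith
  have hlogN : 0 ≤ Real.log N := Real.log_nonneg hN1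
  have hlogm : Real.log N ≤ Real.log m := Real.log_le_log hN0 hNmR
  have hlogm2 : Real.log m ≤ 2 * Real.log N := by
    have h := Real.log_le_log hm0 hmN
    rw [Real.log_rpow hN0] at h
    nlinarith
  have hinj : Function.Injective (pw p L m g i) := pw_injective hlen'
  have hlang : ∀ x : Input D (2 * p) p (2 ^ L), (List.ofFn (pw p L m g i x) ∈ mach.language ↔
      rootBit g i x = true) := by
    intro x
    rw [ofFn_pw hlen']
    exact h1 D (2 * p) p L _ g i hL1 x
  have hk0 : 0 < 2 ^ L := by positivity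
  have : Nonempty (Fin (2 ^ L)) := ⟨⟨0, hk0⟩⟩
  have u₀ : Var D (2 * p) p (2 ^ L) := Sum.inr (g, i)
  refine ⟨univ.image (pw p L m g i), univ_nonempty.image _, ?_, ?_⟩
  · -- the upper bound
    intro r hr
    have hr0 : (0 : ℝ) < r := by exact_mod_cast (by omega : 0 < r)
    have hr1 : (1 : ℝ) ≤ r := by exact_mod_cast hr
    obtain ⟨P, hPs, hPr⟩ := hup r hr
    have hpos : ∃ pos : Var D (2 * p) p (2 ^ L) → ℕ → Fin m, ∀ u e, e < L →
        T p L m g i (pos u e) = Sum.inr (u, e) := by
      have : ∀ (u : Var D (2 * p) p (2 ^ L)) (e : ℕ), ∃ t : Fin m, e < L →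
          T p L m g i t = Sum.inr (u, e) := by
        intro u e
        by_cases he : e < L
        · obtain ⟨t, ht⟩ := exists_pos hlen' u e he
          exact ⟨t, fun _ => ht⟩
        · exact ⟨⟨0, by omega⟩, fun h => absurd h he⟩
      choose pos hpos using this
      exact ⟨pos, hpos⟩
    obtain ⟨pos, hpos⟩ := hpos
    obtain ⟨P', hP's, hP'r⟩ := h4 (Var D (2 * p) p (2 ^ L)) inferInstance m L P pos hL1
    have hsize : 1 ≤ P.size := by
      have : 0 < Fintype.card P.State := Fintype.card_pos_iff.2 ⟨P.start⟩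
      unfold DSP.size
      omega
    have hsize' : 1 ≤ P'.size := by
      have : 0 < Fintype.card P'.State := Fintype.card_pos_iff.2 ⟨P'.start⟩
      unfold DSP.size
      omega
    refine ⟨P', ?_, ?_⟩
    · have e1 : Real.log P'.size ≤ Real.log P.size + Real.log (2 ^ L) := by
        rw [← Real.log_mul (by positivity) (by positivity)]
        apply Real.log_le_log (by exact_mod_cast hsize')
        exact_mod_cast hP's
      have e3 : Real.log (2 ^ L) ≤ Real.log N :=
        Real.log_le_log (by positivity) (by exact_mod_cast hLN)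
      have e5 : (8 * r + 1) * Real.log N ≤ 9 * r * Real.log m := by
        apply mul_le_mul _ hlogm hlogN (by positivity)
        linarith
      linarith
    · intro w hw
      obtain ⟨x, -, rfl⟩ := mem_image.1 hw
      obtain ⟨t, s, ht, hs, hrun⟩ := hPr x
      obtain ⟨s', hs'⟩ := hP'r x (pw p L m g i x) (fun u e he => by
        simp only [pw, hpos u e he, ev]) t s _ _ hrun
      refine ⟨L * t, s', _, _, ?_, ?_, hs', (hlang x).symm⟩
      · push_cast
        calc (L : ℝ) * t ≤ (N : ℝ) ^ η * (N : ℝ) ^ η :=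
              mul_le_mul hLη ht (Nat.cast_nonneg _) (by positivity)
          _ = (N : ℝ) ^ (η + η) := (Real.rpow_add hN0 _ _).symm
          _ ≤ (N : ℝ) ^ δ := Real.rpow_le_rpow_of_exponent_le hN1 (by rw [hη]; linarith)
          _ ≤ (m : ℝ) ^ δ := Real.rpow_le_rpow hN0.le hNmR hδ.le
      · refine (Nat.cast_div_le).trans ?_
        exact div_le_div_of_nonneg_right (hpN.trans hlogm) hr0.le
  · -- the lower bound
    intro Q τ mode hQs hQτ hQ
    set T' := T p L m g i with hT'
    set Q' := pull (2 ^ L) Q T' u₀ with hQ'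
    have hx : ∀ x : Input D (2 * p) p (2 ^ L), ∀ t, pw p L m g i x t = ev x (T' t) :=
      fun x t => rfl
    set mode' : Set (Q'.Conf × Fin (2 ^ L)) → Bool := fun G =>
      mode ((fun p : Q.Conf × Fin (2 ^ L) => (p.1, lt p.2 (T' (Q.query p.1.1)))) '' G) with hmode'
    have hm' : ∀ x, mode' (Q'.graph x) = mode (Q.graph (pw p L m g i x)) := by
      intro x
      rw [hmode']
      simp only
      rw [pull_graph (v0 := u₀) (hx x)]
    have hcard : #(univ.image (pw p L m g i)) = Fintype.card (Input D (2 * p) p (2 ^ L)) := by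
      rw [card_image_of_injective _ hinj, card_univ]
    have hbool : ∀ (r b : Bool) (A : Prop), (A ↔ b = true) → ((r = true ↔ A) ↔ r = b) := by
      intro r b A h
      rw [h]
      cases r <;> cases b <;> simp
    have hfil : #{w ∈ univ.image (pw p L m g i) |
        mode (Q.graph w) = true ↔ List.ofFn w ∈ mach.language} =
        #(univ.filter (fun x : Input D (2 * p) p (2 ^ L) =>
          mode' (Q'.graph x) = rootBit g i x)) := by
      rw [filter_image, card_image_of_injective _ hinj]
      congr 1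
      apply filter_congr
      intro x _
      rw [hm']
      exact hbool _ _ _ (hlang x)
    rw [hcard, hfil] at hQ
    have key := hlow Q' τ mode' ?_ ?_ ?_
    · rw [hcard, sum_image (fun x _ y _ h => hinj h)]
      have e1 : (m : ℝ) ^ (1 - δ) ≤ (N : ℝ) ^ (1 - η) := by
        calc (m : ℝ) ^ (1 - δ) ≤ (m : ℝ) ^ (1 - δ₁) :=
              Real.rpow_le_rpow_of_exponent_le hm1 (by linarith)
          _ ≤ ((N : ℝ) ^ (1 + η)) ^ (1 - δ₁) := Real.rpow_le_rpow hm0.le hmN (by linarith)
          _ = (N : ℝ) ^ ((1 + η) * (1 - δ₁)) := by rw [← Real.rpow_mul hN0.le]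
          _ ≤ (N : ℝ) ^ (1 - η) := by
            apply Real.rpow_le_rpow_of_exponent_le hN1
            have : δ₁ = 4 * η := by rw [hη]; ring
            rw [this]
            nlinarith
      calc (m : ℝ) ^ (1 - δ) * (Fintype.card (Input D (2 * p) p (2 ^ L)) : ℝ)
          ≤ (N : ℝ) ^ (1 - η) * (Fintype.card (Input D (2 * p) p (2 ^ L)) : ℝ) :=
            mul_le_mul_of_nonneg_right e1 (Nat.cast_nonneg _)
        _ ≤ ∑ x, (Q'.reads x : ℝ) := key
        _ ≤ ∑ x, (Q.reads (pw p L m g i x) : ℝ) := sum_le_sum fun x _ => by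
          exact_mod_cast pull_reads (v0 := u₀) (hx x)
    · have e1 : Q'.size = Q.size := rfl
      rw [e1]
      refine hQs.trans ?_
      have e2 : Real.log m ^ 2 ≤ (2 * Real.log N) ^ 2 :=
        pow_le_pow_left₀ (hlogN.trans hlogm) hlogm2 2
      have e3 : Real.log N ^ 2 ≤ C * p * Real.log N := by
        rw [sq]
        exact mul_le_mul_of_nonneg_right hNC hlogN
      have e4 : 0 < c / (4 * C) := by positivity
      calc c / (4 * C) * Real.log m ^ 2 ≤ c / (4 * C) * (2 * Real.log N) ^ 2 :=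
            mul_le_mul_of_nonneg_left e2 e4.le
        _ = c / C * Real.log N ^ 2 := by field_simp; ring
        _ ≤ c / C * (C * p * Real.log N) := mul_le_mul_of_nonneg_left e3 (by positivity)
        _ = c * p * Real.log N := by field_simp
    · intro x κ hκ
      exact hQτ _ (mem_image_of_mem _ (mem_univ x)) κ ((pull_reach (hx x) κ).1 hκ)
    · refine le_trans (mul_le_mul_of_nonneg_right ?_ (Nat.cast_nonneg _)) hQ
      have e1 : (N : ℝ) ^ (-c) ≤ (m : ℝ) ^ (-(c / 2)) := by
        have e2 : (m : ℝ) ^ (c / 2) ≤ (N : ℝ) ^ c := by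
          calc (m : ℝ) ^ (c / 2) ≤ ((N : ℝ) ^ (1 + η)) ^ (c / 2) :=
                Real.rpow_le_rpow hm0.le hmN (by positivity)
            _ = (N : ℝ) ^ ((1 + η) * (c / 2)) := by rw [← Real.rpow_mul hN0.le]
            _ ≤ (N : ℝ) ^ c := by
              apply Real.rpow_le_rpow_of_exponent_le hN1
              nlinarith
        rw [Real.rpow_neg hN0.le, Real.rpow_neg hm0.le]
        exact inv_anti₀ (by positivity) e2
      linarith

end Pool.Agent.W997.CS
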