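import Pool.Agent.W997.CS.Defs

/-!
# The parts of the proof
-/

set_option autoImplicit false

namespace Pool.Agent.W997.CS

open Pool.Agent.W997.DB (Word Var Input value shift rootBit)
open Pool.Agent.W997.CF (TL ev digits tree arg mach)
open Pool.Agent.W997.GS (SP DSP ByStack HardForAllModes)

/-- The machine evaluates the graph, also after leading zeros. -/
def S_PDA : Prop :=
  ∀ (D ρ h L j : ℕ) (g : Word D ρ) (i : Fin D), 1 ≤ L → ∀ x : Input D ρ h (2 ^ L),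
    (List.replicate j (0 : Fin 6) ++ (wd h L g i).map (ev x) ∈ mach.language ↔
      rootBit g i x = true)

/-- The length of the word. -/
def S_LEN : Prop :=
  ∀ (D ρ h L : ℕ) (g : Word D ρ) (i : Fin D), 2 ≤ D → 1 ≤ L → 1 ≤ h → h ≤ ρ →
    (wd h L g i).length ≤ Fintype.card (Var D ρ h (2 ^ L)) * (3 * L + 4)

/-- A program with a stack over the variables gives a program with a stack over the positions. -/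
def S_SIM : Prop :=
  ∀ (V : Type) (_ : DecidableEq V) (m L : ℕ) (P : DSP V (2 ^ L)) (pos : V → ℕ → Fin m), 1 ≤ L →
    ∃ P' : DSP (Fin m) 6, P'.size ≤ P.size * 2 ^ L ∧
      ∀ (x : V → Fin (2 ^ L)) (w : Fin m → Fin 6),
        (∀ u e, e < L → w (pos u e) = if (x u).val.testBit e then 1 else 0) →
        ∀ t s τ r, P.Run x t s τ r → ∃ s', P'.Run w (L * t) s' τ r

/-- The choice of the parameter. -/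
def S_SEL : Prop :=
  ∀ (D ℓ₁ : ℕ), 2 ≤ D → 1 ≤ ℓ₁ → ∃ C : ℝ, 0 < C ∧ ∀ η : ℝ, 0 < η → ∀ p₀ : ℕ, ∃ m₀ : ℕ,
    ∀ m : ℕ, m₀ ≤ m → ∃ p : ℕ, p₀ ≤ p ∧ 1 ≤ p ∧
      NN D ℓ₁ p * (3 * (ℓ₁ * p) + 4) ≤ m ∧ (m : ℝ) ≤ (NN D ℓ₁ p : ℝ) ^ (1 + η) ∧
      ((ℓ₁ * p : ℕ) : ℝ) ≤ (NN D ℓ₁ p : ℝ) ^ η ∧ 2 ^ (ℓ₁ * p) ≤ NN D ℓ₁ p ∧
      (p : ℝ) ≤ Real.log (NN D ℓ₁ p) ∧ Real.log (NN D ℓ₁ p) ≤ C * p

/-- The law for the graph. -/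
def S_BASE : Prop :=
  ∀ δ : ℝ, 0 < δ → ∃ D ℓ₁ : ℕ, 2 ≤ D ∧ 1 ≤ ℓ₁ ∧ ∃ c : ℝ, 0 < c ∧ ∃ p₀ : ℕ,
    ∀ p : ℕ, p₀ ≤ p → ∀ (g : Word D (2 * p)) (i : Fin D),
      (∀ r : ℕ, 1 ≤ r → ByStack (rootBit (h := p) (k := 2 ^ (ℓ₁ * p)) g i)
        (8 * r * Real.log (NN D ℓ₁ p)) (p / r) ((NN D ℓ₁ p : ℝ) ^ δ) ((NN D ℓ₁ p : ℝ) ^ δ)) ∧
      HardForAllModes (rootBit (h := p) (k := 2 ^ (ℓ₁ * p)) g i)
        (c * p * Real.log (NN D ℓ₁ p)) ((NN D ℓ₁ p : ℝ) ^ (-c)) ((NN D ℓ₁ p : ℝ) ^ (1 - δ))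

end Pool.Agent.W997.CS
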